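import Mathlib
import Pool.Agent.K4H2.MH.Proj
import Pool.Agent.K4H2.MH.Ample

set_option autoImplicit false

/-!
# Moduli heights are comparable with minimal heights in orbits

Everything is over the field `Qbar` of algebraic numbers. `PP n` is `n`-dimensional projective
space and `height` the absolute logarithmic Weil height on it. The definitions of
`IsZariskiClosed` (common zeros of homogeneous polynomials), `IsQuasiProjective` (Zariski closed
minus Zariski closed), `IsRegularMap` (locally given by homogeneous polynomials of the same degree
without common zeros), `IsProjEmbedding` (regular map onto a quasi-projective set with a regular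
inverse), `IsAmpleHeight` (up to a bounded function and a positive multiple, the pullback of the
height under a projective embedding) and `Comparable` (the relation `≍` of the problem) are in the
imported files.

The theorem answers Q1 positively. No algebraicity of the action and no other property of a
geometric quotient is used than: `π` is a regular map whose fibres are the orbits.
-/

namespace Pool.Agent.Results.MP_216eb3_nt.OrbitHeights

open Pool.Agent.K4H2.MH Pool.Agent.Helper259.AbsHt

/-- **Moduli heights are comparable with minimal heights in orbits.** Let `X` and `Y` be
quasi-projective, let a group `G` act on `X`, and let `π : X → Y` be a regular map whose fibres are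
the `G`-orbits (for example a geometric quotient). Then for all ample heights `hX` on `X` and `hY`
on `Y`, `hY (π x) ≍ inf_g hX (g • x)`. -/
theorem result {n m : ℕ} (X : Set (PP n)) (Y : Set (PP m)) (hXq : IsQuasiProjective X)
    (hYq : IsQuasiProjective Y) (G : Type*) [Group G] [MulAction G X] (π : X → Y)
    (hπ : IsRegularMap X (fun x => (π x : PP m)))
    (horb : ∀ x x' : X, π x = π x' ↔ ∃ g : G, g • x = x')
    (hX : X → ℝ) (hY : Y → ℝ) (haX : IsAmpleHeight X hX) (haY : IsAmpleHeight Y hY) :
    Comparable (fun x => hY (π x)) (fun x => ⨅ g : G, hX (g • x)) := by
  have h1 : Comparable (fun x => height (π x : PP m))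
      (fun x => ⨅ g : G, height ((g • x : X) : PP n)) := by
    apply fibre_comparable hXq hπ (fun _ => G) (fun x g => g • x)
    intro x x'
    rw [← horb x x']
    constructor
    · intro h
      exact (Subtype.ext h).symm
    · intro h
      rw [h]
  have h2 := comparable_iInf (S := X) (fun _ => G) (fun x g => g • x) (ample_comparable hXq haX)
    (fun x => height_nonneg _)
  have h3 := ample_comparable hYq haY
  have h4 : Comparable (fun x => hY (π x)) (fun x => height (π x : PP m)) := by
    obtain ⟨c₁, c₂, c₃, c₄, k1, k2, k⟩ := comparable_symm h3
    exact ⟨c₁, c₂, c₃, c₄, k1, k2, fun x => k (π x)⟩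
  exact comparable_trans h4 (comparable_trans h1 h2)

end Pool.Agent.Results.MP_216eb3_nt.OrbitHeights
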