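import Mathlib
import Pool.Agent.K4H2.MH.Proj
import Pool.Agent.K4H2.MH.Ample
import Pool.Agent.K4H2.MH.Rat

set_option autoImplicit false

/-!
# The moduli height of a rational map is comparable with the minimal height of its conjugates

Everything is over the field `Qbar` of algebraic numbers. `PP n` is `n`-dimensional projective
space and `height` the absolute logarithmic Weil height on it. `RatMaps d` is the set of the
coefficient vectors `[a_0 : ... : a_d : b_0 : ... : b_d]` whose two forms have no common zero on the
projective line, and `IsConj d φ P Q` says that `Q` is the coefficient vector of `φ⁻¹ ∘ P ∘ φ`.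
-/

namespace Pool.Agent.Results.MP_216eb3_nt.RatHeights

open Pool.Agent.K4H2.MH Pool.Agent.Helper259.AbsHt

/-- **The moduli height is comparable with the minimal height in the conjugacy class.** Let `d > 0`
and let `π` be a regular map from the space of rational maps of degree `d` to a projective space
whose fibres are the conjugacy classes (for example the quotient map to the moduli space of rational
maps of degree `d` followed by a projective embedding of that space). Then `height (π P)` is
comparable with the infimum of the heights of the coefficient vectors of the conjugates of `P`. -/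
theorem result (d m : ℕ) (hd : 0 < d) (π : RatMaps d → PP m) (hπ : IsRegularMap (RatMaps d) π)
    (hfib : ∀ P Q : RatMaps d, π P = π Q ↔ ∃ φ : GL (Fin 2) Qbar, IsConj d φ P Q) :
    Comparable (fun P => height (π P))
      (fun P => ⨅ Q : {Q : RatMaps d // ∃ φ : GL (Fin 2) Qbar, IsConj d φ P Q},
        height ((Q : RatMaps d) : PP (2 * d + 1))) := by
  apply fibre_comparable (ratMaps_quasiProjective d hd) hπ
    (fun P => {Q : RatMaps d // ∃ φ : GL (Fin 2) Qbar, IsConj d φ P Q}) (fun P Q => Q)
  intro P Q
  constructor
  · intro h
    exact ⟨⟨Q, (hfib P Q).1 h.symm⟩, rfl⟩
  · rintro ⟨⟨Q', h⟩, rfl⟩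
    exact ((hfib P Q').2 h).symm

end Pool.Agent.Results.MP_216eb3_nt.RatHeights
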